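import Pool.Agent.TH128.OW.Cas

/-!
# Cocycles of a Lie algebra of tuples of matrices which generate all tuples
-/

set_option autoImplicit false
set_option linter.unusedSectionVars false

open Module Matrix

namespace Pool.Agent.TH128.OW

open Pool.Agent.TH128.OM

attribute [local instance 100] LieRing.ofAssociativeRing

variable {J : Type} [Fintype J] [DecidableEq J] {N : J → Type}
  [∀ j, Fintype (N j)] [∀ j, DecidableEq (N j)] [∀ j, Nonempty (N j)]
variable {l : Submodule ℂ (∀ j, Matrix (N j) (N j) ℂ)}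

theorem mem_center {hbr : ∀ x ∈ l, ∀ y ∈ l, x * y - y * x ∈ l} {x : lieSub l hbr} :
    x ∈ (LieAlgebra.center ℂ (lieSub l hbr)).toSubmodule ↔ ∀ y ∈ l, x.1 * y - y * x.1 = 0 := by
  constructor
  · intro h y hy
    have h1 := (LieModule.mem_maxTrivSubmodule _ _ _ _).1 h ⟨y, hy⟩
    have h2 : y * x.1 - x.1 * y = 0 := congrArg Subtype.val h1
    rw [← neg_sub, h2, neg_zero]
  · intro h
    refine (LieModule.mem_maxTrivSubmodule _ _ _ _).2 fun y => Subtype.ext ?_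
    change y.1 * x.1 - x.1 * y.1 = 0
    rw [← neg_sub, h y.1 y.2, neg_zero]

theorem rd_of (hbr : ∀ x ∈ l, ∀ y ∈ l, x * y - y * x ∈ l)
    (hgen : Algebra.adjoin ℂ (l : Set (∀ j, Matrix (N j) (N j) ℂ)) = ⊤) :
    Rd ((LieAlgebra.center ℂ (lieSub l hbr)).toSubmodule) (Dc hbr) where
  cen z hz x := (LieModule.mem_maxTrivSubmodule _ _ _ _).1 hz x
  rad x hx := by
    refine mem_center.2 fun y _ => ?_
    funext j
    obtain ⟨c, hc⟩ := radical_entry hgen hx j
    rw [Pi.sub_apply, Pi.mul_apply, Pi.mul_apply, hc, Matrix.smul_mul, Matrix.mul_smul,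
      Matrix.one_mul, Matrix.mul_one, sub_self, Pi.zero_apply]
  lie x y := Submodule.subset_span ⟨x, y, rfl⟩
  sup := by
    have hdis : Oc hbr ⊓ Dc hbr = ⊥ := by
      rw [eq_bot_iff]
      rintro y ⟨hy1, hy2⟩
      rw [Submodule.mem_bot]
      apply Subtype.ext
      funext i
      obtain ⟨c, hc⟩ := central_entry hgen (Oc_central hgen hy1) i
      exact scalar_zero hc (trace_Dc hy2 i)
    have hdim := Submodule.finrank_sup_add_finrank_inf_eq (Oc hbr) (Dc hbr)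
    rw [hdis, finrank_bot, add_zero] at hdim
    have hrn := LinearMap.finrank_range_add_finrank_ker
      ((Submodule.dualRestrict (Dc hbr)) ∘ₗ killingForm ℂ (lieSub l hbr))
    have hle : finrank ℂ (LinearMap.range
        ((Submodule.dualRestrict (Dc hbr)) ∘ₗ killingForm ℂ (lieSub l hbr))) ≤
        finrank ℂ (Dc hbr) := by
      refine (Submodule.finrank_le _).trans ?_
      rw [Subspace.dual_finrank_eq]
    have htop : Oc hbr ⊔ Dc hbr = ⊤ := by
      refine Submodule.eq_top_of_finrank_eq (le_antisymm (Submodule.finrank_le _) ?_)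
      rw [hdim, ← hrn]
      change _ ≤ finrank ℂ (LinearMap.ker ((Submodule.dualRestrict (Dc hbr)) ∘ₗ
        killingForm ℂ (lieSub l hbr))) + _
      omega
    rw [eq_top_iff, ← htop]
    exact sup_le_sup_right (fun x hx => mem_center.2 (Oc_central hgen hx)) _
  inf x hx hx2 := by
    apply Subtype.ext
    funext i
    obtain ⟨c, hc⟩ := central_entry hgen (mem_center.1 hx) i
    exact scalar_zero hc (trace_Dc hx2 i)

/-- A vector can be moved to every other vector. -/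
theorem exists_move {j : J} {m : N j → ℂ} (hm : m ≠ 0) (w : N j → ℂ) :
    ∃ X : Matrix (N j) (N j) ℂ, X *ᵥ m = w := by
  obtain ⟨b, hb⟩ := Function.ne_iff.1 hm
  refine ⟨Matrix.of fun a b' => if b' = b then w a / m b else 0, ?_⟩
  funext a
  rw [Matrix.mulVec, dotProduct, Finset.sum_eq_single b]
  · rw [Matrix.of_apply, if_pos rfl]
    exact div_mul_cancel₀ _ hb
  · intro b' _ hb'
    rw [Matrix.of_apply, if_neg hb', zero_mul]
  · intro h
    exact absurd (Finset.mem_univ b) h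

/-- **Cocycles are coboundaries.** -/
theorem cob_of (hbr : ∀ x ∈ l, ∀ y ∈ l, x * y - y * x ∈ l)
    (hgen : Algebra.adjoin ℂ (l : Set (∀ j, Matrix (N j) (N j) ℂ)) = ⊤) (j : J)
    (hnt : ∃ x ∈ l, x j ≠ 0) (φ : l →ₗ[ℂ] (N j → ℂ))
    (hφ : ∀ (x : ∀ j, Matrix (N j) (N j) ℂ) (hx : x ∈ l) (y : ∀ j, Matrix (N j) (N j) ℂ)
      (hy : y ∈ l), φ ⟨x * y - y * x, hbr x hx y hy⟩ =
        x j *ᵥ φ ⟨y, hy⟩ - y j *ᵥ φ ⟨x, hx⟩) :
    ∃ w : N j → ℂ, ∀ (x : ∀ j, Matrix (N j) (N j) ℂ) (hx : x ∈ l), φ ⟨x, hx⟩ = x j *ᵥ w := by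
  let _ : LieRingModule (lieSub l hbr) (N j → ℂ) := modRing hbr j
  have _ : LieModule ℂ (lieSub l hbr) (N j → ℂ) :=
    { smul_lie := fun c x v => by
        change (c • x.1 : ∀ j, Matrix (N j) (N j) ℂ) j *ᵥ v = c • (x.1 j *ᵥ v)
        rw [Pi.smul_apply, Matrix.smul_mulVec]
      lie_smul := fun c x v => by
        change x.1 j *ᵥ (c • v) = c • (x.1 j *ᵥ v)
        rw [Matrix.mulVec_smul] }
  let φ' : lieSub l hbr →ₗ[ℂ] (N j → ℂ) :=
    { toFun := fun x => φ ⟨x.1, x.2⟩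
      map_add' := fun x y => map_add φ ⟨x.1, x.2⟩ ⟨y.1, y.2⟩
      map_smul' := fun c x => map_smul φ c ⟨x.1, x.2⟩ }
  obtain ⟨w, hw⟩ := cob (M := N j → ℂ) (rd_of hbr hgen) (by
    intro S hS
    rw [Ne, LieSubmodule.eq_bot_iff] at hS
    push Not at hS
    obtain ⟨v, hv, hv0⟩ := hS
    have h1 : ∀ x : ∀ j, Matrix (N j) (N j) ℂ, ∀ v ∈ S, (x j) *ᵥ v ∈ S := by
      refine adjoin_ind hgen ?_ ?_ ?_ ?_ ?_
      · intro v hv
        rw [Pi.one_apply, Matrix.one_mulVec]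
        exact hv
      · intro x hx v hv
        exact S.lie_mem (x := (⟨x, hx⟩ : lieSub l hbr)) hv
      · intro x y hx hy v hv
        rw [Pi.add_apply, Matrix.add_mulVec]
        exact S.add_mem (hx v hv) (hy v hv)
      · intro x y hx hy v hv
        rw [Pi.mul_apply, ← Matrix.mulVec_mulVec]
        exact hx _ (hy v hv)
      · intro c x hx v hv
        rw [Pi.smul_apply, Matrix.smul_mulVec]
        exact S.smul_mem _ (hx v hv)
    rw [eq_top_iff]
    intro w _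
    obtain ⟨X, hX⟩ := exists_move hv0 w
    have h2 := h1 (Pi.single j X) v hv
    rw [Pi.single_eq_same, hX] at h2
    exact h2) (by
    obtain ⟨x, hx, hx0⟩ := hnt
    by_contra hcon
    push Not at hcon
    apply hx0
    refine Matrix.ext_of_mulVec_single fun b => ?_
    rw [Matrix.zero_mulVec]
    exact hcon ⟨x, hx⟩ (Pi.single b 1)) φ' (fun x y => hφ x.1 x.2 y.1 y.2)
  exact ⟨w, fun x hx => hw ⟨x, hx⟩⟩

/-- There is no vector killed by `l`. -/
theorem no_inv (hgen : Algebra.adjoin ℂ (l : Set (∀ j, Matrix (N j) (N j) ℂ)) = ⊤) {j : J}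
    (hnt : ∃ x ∈ l, x j ≠ 0) {m : N j → ℂ} (hm : ∀ x ∈ l, x j *ᵥ m = 0) : m = 0 := by
  by_contra h0
  obtain ⟨x₀, hx₀, hx0⟩ := hnt
  have h1 : ∀ x : ∀ j, Matrix (N j) (N j) ℂ, ∃ s : ℂ, x j *ᵥ m = s • m := by
    refine adjoin_ind hgen ?_ ?_ ?_ ?_ ?_
    · exact ⟨1, by rw [Pi.one_apply, Matrix.one_mulVec, one_smul]⟩
    · intro x hx
      exact ⟨0, by rw [hm x hx, zero_smul]⟩
    · rintro x y ⟨s, hs⟩ ⟨t, ht⟩
      exact ⟨s + t, by rw [Pi.add_apply, Matrix.add_mulVec, hs, ht, add_smul]⟩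
    · rintro x y ⟨s, hs⟩ ⟨t, ht⟩
      exact ⟨t * s, by
        rw [Pi.mul_apply, ← Matrix.mulVec_mulVec, ht, Matrix.mulVec_smul, hs, smul_smul]⟩
    · rintro c x ⟨s, hs⟩
      exact ⟨c * s, by rw [Pi.smul_apply, Matrix.smul_mulVec, hs, smul_smul]⟩
  apply hx0
  refine Matrix.ext_of_mulVec_single fun b => ?_
  rw [Matrix.zero_mulVec]
  obtain ⟨X, hX⟩ := exists_move h0 (Pi.single b 1)
  obtain ⟨s, hs⟩ := h1 (Pi.single j X)
  rw [Pi.single_eq_same, hX] at hs
  rw [hs, Matrix.mulVec_smul, hm x₀ hx₀, smul_zero]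

end Pool.Agent.TH128.OW
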