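import Pool.Agent.TH128.OW.Rd
import Pool.Agent.TH128.OM.Center

/-!
# Reductive Lie algebras: the Casimir element and cocycles
-/

set_option autoImplicit false
set_option linter.unusedSectionVars false

open Module

namespace Pool.Agent.TH128.OW

variable {L M : Type} [LieRing L] [LieAlgebra ℂ L] [Module.Finite ℂ L]
  [AddCommGroup M] [Module ℂ M] [LieRingModule L M] [LieModule ℂ L M] [Module.Finite ℂ M]
variable {Z D : Submodule ℂ L}

theorem inv0 [Nontrivial M] (hirr : ∀ S : LieSubmodule ℂ L M, S ≠ ⊥ → S = ⊤)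
    (hnt : ∃ x : L, ∃ m : M, ⁅x, m⁆ ≠ 0) {m : M} (hm : ∀ x : L, ⁅x, m⁆ = 0) : m = 0 := by
  by_contra h0
  let W : LieSubmodule ℂ L M :=
    { carrier := {m | ∀ a : L, ⁅a, m⁆ = 0}
      zero_mem' := fun a => lie_zero a
      add_mem' := fun {m m'} hm hm' a => by rw [lie_add, hm a, hm' a, add_zero]
      smul_mem' := fun c m hm a => by rw [lie_smul, hm a, smul_zero]
      lie_mem := fun {y m} hm a => by rw [hm y, lie_zero] }
  have hW : W = ⊤ := hirr W (by
    intro h1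
    have h2 : m ∈ W := hm
    rw [h1] at h2
    exact h0 ((LieSubmodule.mem_bot _).1 h2))
  obtain ⟨x, m', h1⟩ := hnt
  have h2 : m' ∈ W := by
    rw [hW]
    exact LieSubmodule.mem_top _
  exact h1 (h2 x)

/-- The lemma of Schur. -/
theorem schur [Nontrivial M] (hirr : ∀ S : LieSubmodule ℂ L M, S ≠ ⊥ → S = ⊤)
    (C : Module.End ℂ M) (hC : ∀ (x : L) (m : M), C ⁅x, m⁆ = ⁅x, C m⁆) :
    ∃ c : ℂ, ∀ m, C m = c • m := by
  obtain ⟨c, hc⟩ := Module.End.exists_eigenvalue C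
  obtain ⟨m₀, hm₀⟩ := hc.exists_hasEigenvector
  let W : LieSubmodule ℂ L M :=
    { carrier := {m | C m = c • m}
      zero_mem' := by
        change C 0 = c • (0 : M)
        rw [map_zero, smul_zero]
      add_mem' := fun {m m'} hm hm' => by
        change C (m + m') = c • (m + m')
        rw [map_add, smul_add, show C m = c • m from hm, show C m' = c • m' from hm']
      smul_mem' := fun a m hm => by
        change C (a • m) = c • (a • m)
        rw [map_smul, show C m = c • m from hm, smul_comm]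
      lie_mem := fun {y m} hm => by
        change C ⁅y, m⁆ = c • ⁅y, m⁆
        rw [hC, show C m = c • m from hm, lie_smul] }
  have hW : W = ⊤ := hirr W (by
    intro h1
    have h2 : m₀ ∈ W := Module.End.mem_eigenspace_iff.1 hm₀.1
    rw [h1] at h2
    exact hm₀.2 ((LieSubmodule.mem_bot _).1 h2))
  refine ⟨c, fun m => ?_⟩
  have h2 : m ∈ W := by
    rw [hW]
    exact LieSubmodule.mem_top _
  exact h2

/-- The trace form on the semisimple part. -/
noncomputable def Bf (L M : Type) [LieRing L] [LieAlgebra ℂ L] [AddCommGroup M] [Module ℂ M]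
    [LieRingModule L M] [LieModule ℂ L M] (D : Submodule ℂ L) : LinearMap.BilinForm ℂ D :=
  (LieModule.traceForm ℂ L M).domRestrict₁₂ D D

theorem Bf_apply (a b : D) : Bf L M D a b = LieModule.traceForm ℂ L M a.1 b.1 := rfl

theorem exists_orth : ∃ v : Basis (Fin (finrank ℂ D)) ℂ D, ∀ i j, i ≠ j →
    Bf L M D (v i) (v j) = 0 := by
  have hinv : Invertible (2 : ℂ) := invertibleOfNonzero two_ne_zero
  obtain ⟨v, hv⟩ := LinearMap.BilinForm.exists_orthogonal_basis (B := Bf L M D)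
    ⟨fun a b => LieModule.traceForm_comm ℂ L M a.1 b.1⟩
  exact ⟨v, fun i j hij => hv hij⟩

section dual

variable {v : Basis (Fin (finrank ℂ D)) ℂ D}
  (hv : ∀ i j, i ≠ j → Bf L M D (v i) (v j) = 0)

include hv

theorem Bf_repr (x : D) (i : Fin (finrank ℂ D)) :
    Bf L M D x (v i) = v.repr x i * Bf L M D (v i) (v i) := by
  conv_lhs => rw [← v.sum_repr x]
  rw [map_sum, LinearMap.sum_apply, Finset.sum_eq_single i]
  · rw [map_smul, LinearMap.smul_apply, smul_eq_mul]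
  · intro k _ hk
    rw [map_smul, LinearMap.smul_apply, hv k i hk, smul_zero]
  · intro h
    exact absurd (Finset.mem_univ i) h

theorem mem_ker {i : Fin (finrank ℂ D)} (hi : Bf L M D (v i) (v i) = 0) :
    (v i).1 ∈ D ⊓ orth (LieModule.traceForm ℂ L M) D := by
  refine ⟨(v i).2, fun y hy => ?_⟩
  have h1 := Bf_repr hv ⟨y, hy⟩ i
  rw [hi, mul_zero] at h1
  rw [LieModule.traceForm_comm]
  exact h1

theorem expand {V : Type} [AddCommGroup V] [Module ℂ V] (G : L →ₗ[ℂ] V)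
    (hG : ∀ a ∈ D ⊓ orth (LieModule.traceForm ℂ L M) D, G a = 0) (x : D) :
    G x.1 = ∑ i, ((Bf L M D (v i) (v i))⁻¹ * Bf L M D x (v i)) • G (v i).1 := by
  have h1 : x.1 = ∑ i, v.repr x i • (v i).1 := by
    conv_lhs => rw [← v.sum_repr x]
    rw [Submodule.coe_sum]
    rfl
  conv_lhs => rw [h1]
  rw [map_sum]
  refine Finset.sum_congr rfl fun i _ => ?_
  rw [map_smul, Bf_repr hv x i]
  by_cases hi : Bf L M D (v i) (v i) = 0
  · rw [hG _ (mem_ker hv hi), smul_zero, smul_zero]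
  · congr 1
    field_simp

/-- The invariance. -/
theorem invar (h : Rd Z D) {V : Type} [AddCommGroup V] [Module ℂ V] (F : L →ₗ[ℂ] L →ₗ[ℂ] V)
    (hF1 : ∀ a ∈ D ⊓ orth (LieModule.traceForm ℂ L M) D, ∀ b, F a b = 0)
    (hF2 : ∀ a, ∀ b ∈ D ⊓ orth (LieModule.traceForm ℂ L M) D, F a b = 0) (y : L) :
    ∑ i, (Bf L M D (v i) (v i))⁻¹ • (F ⁅y, (v i).1⁆ (v i).1 + F (v i).1 ⁅y, (v i).1⁆) = 0 := by
  obtain ⟨g, hg⟩ : ∃ g : Fin (finrank ℂ D) → ℂ, ∀ i, g i = (Bf L M D (v i) (v i))⁻¹ :=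
    ⟨_, fun i => rfl⟩
  obtain ⟨s, hs⟩ : ∃ s : Fin (finrank ℂ D) → Fin (finrank ℂ D) → ℂ, ∀ i k, s i k =
    Bf L M D ⟨⁅y, (v i).1⁆, h.lie _ _⟩ (v k) := ⟨_, fun i k => rfl⟩
  have hanti : ∀ i k, s i k = -s k i := by
    intro i k
    rw [hs, hs, Bf_apply, Bf_apply, inv1 M, LieModule.traceForm_comm]
  have e1 : ∀ i, F ⁅y, (v i).1⁆ (v i).1 = ∑ k, (g k * s i k) • F (v k).1 (v i).1 := by
    intro i
    have h1 := expand hv (F.flip (v i).1) (fun a ha => hF1 a ha _) ⟨⁅y, (v i).1⁆, h.lie _ _⟩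
    simp only [← hg, ← hs, LinearMap.flip_apply] at h1
    exact h1
  have e2 : ∀ i, F (v i).1 ⁅y, (v i).1⁆ = ∑ k, (g k * s i k) • F (v i).1 (v k).1 := by
    intro i
    have h1 := expand hv (F (v i).1) (fun a ha => hF2 _ a ha) ⟨⁅y, (v i).1⁆, h.lie _ _⟩
    simp only [← hg, ← hs] at h1
    exact h1
  simp only [← hg]
  have e3 : ∑ i, g i • F ⁅y, (v i).1⁆ (v i).1 =
      ∑ i, ∑ k, (g i * (g k * s i k)) • F (v k).1 (v i).1 := by
    refine Finset.sum_congr rfl fun i _ => ?_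
    rw [e1, Finset.smul_sum]
    exact Finset.sum_congr rfl fun k _ => by rw [smul_smul]
  have e4 : ∑ i, g i • F (v i).1 ⁅y, (v i).1⁆ =
      -∑ i, ∑ k, (g i * (g k * s i k)) • F (v k).1 (v i).1 := by
    have h1 : ∑ i, g i • F (v i).1 ⁅y, (v i).1⁆ =
        ∑ i, ∑ k, (g i * (g k * s i k)) • F (v i).1 (v k).1 := by
      refine Finset.sum_congr rfl fun i _ => ?_
      rw [e2, Finset.smul_sum]
      exact Finset.sum_congr rfl fun k _ => by rw [smul_smul]
    rw [h1, Finset.sum_comm, ← Finset.sum_neg_distrib]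
    refine Finset.sum_congr rfl fun k _ => ?_
    rw [← Finset.sum_neg_distrib]
    refine Finset.sum_congr rfl fun i _ => ?_
    rw [hanti i k, ← neg_smul]
    congr 1
    ring
  simp only [smul_add, Finset.sum_add_distrib]
  rw [e3, e4, add_neg_cancel]

end dual

/-- **The first cohomology vanishes.** -/
theorem cob (h : Rd Z D) [Nontrivial M] (hirr : ∀ S : LieSubmodule ℂ L M, S ≠ ⊥ → S = ⊤)
    (hnt : ∃ x : L, ∃ m : M, ⁅x, m⁆ ≠ 0) (φ : L →ₗ[ℂ] M)
    (hφ : ∀ x y : L, φ ⁅x, y⁆ = ⁅x, φ y⁆ - ⁅y, φ x⁆) : ∃ w : M, ∀ x : L, φ x = ⁅x, w⁆ := by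
  by_cases hZ : ∃ z ∈ Z, ∃ m : M, ⁅z, m⁆ ≠ 0
  · obtain ⟨z, hz, m, hzm⟩ := hZ
    have hcen : z ∈ LieAlgebra.center ℂ L := (LieModule.mem_maxTrivSubmodule _ _ _ _).2 (h.cen z hz)
    obtain ⟨c, hc⟩ := Pool.Agent.TH128.OM.radical_scalar (M := M) hirr
      (LieAlgebra.center_le_radical ℂ L hcen)
    have hc0 : c ≠ 0 := by
      rintro rfl
      rw [hc, zero_smul] at hzm
      exact hzm rfl
    refine ⟨c⁻¹ • φ z, fun x => ?_⟩
    have h1 := hφ x z
    rw [h.cen z hz x, map_zero, hc] at h1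
    rw [lie_smul, sub_eq_zero.1 h1.symm, smul_smul, inv_mul_cancel₀ hc0, one_smul]
  push Not at hZ
  have hφZ : ∀ z ∈ Z, φ z = 0 := by
    intro z hz
    refine inv0 hirr hnt fun x => ?_
    have h1 := hφ x z
    rw [h.cen z hz x, map_zero, hZ z hz, sub_zero] at h1
    exact h1.symm
  have hNa : ∀ a ∈ D ⊓ orth (LieModule.traceForm ℂ L M) D, ∀ m : M, ⁅a, m⁆ = 0 :=
    fun a ha m => h.ker_trace hirr ha m
  have hNid : ∀ y : L, ∀ a ∈ D ⊓ orth (LieModule.traceForm ℂ L M) D,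
      ⁅y, a⁆ ∈ D ⊓ orth (LieModule.traceForm ℂ L M) D := by
    intro y a ha
    refine ⟨h.lie y a, fun b _ => ?_⟩
    rw [inv1 M a y b]
    rw [show LieModule.traceForm ℂ L M a ⁅y, b⁆ = 0 from ha.2 _ (h.lie y b), neg_zero]
  have hNφ : ∀ a ∈ D ⊓ orth (LieModule.traceForm ℂ L M) D, φ a = 0 := by
    intro a ha
    have h1 : brs (D ⊓ orth (LieModule.traceForm ℂ L M) D) ≤ LinearMap.ker φ := by
      refine Submodule.span_le.2 ?_
      rintro _ ⟨b, hb, b', hb', rfl⟩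
      change φ ⁅b, b'⁆ = 0
      rw [hφ, hNa b hb, hNa b' hb', sub_zero]
    exact LinearMap.mem_ker.1 (h1 (h.perfect inf_le_left hNid ha))
  obtain ⟨v, hv⟩ := exists_orth (L := L) (M := M) (D := D)
  obtain ⟨g, hg⟩ : ∃ g : Fin (finrank ℂ D) → ℂ, ∀ i, g i = (Bf L M D (v i) (v i))⁻¹ :=
    ⟨_, fun i => rfl⟩
  let C : Module.End ℂ M := ∑ i, g i • (LieModule.toEnd ℂ L M (v i).1 *
    LieModule.toEnd ℂ L M (v i).1)
  have hCm : ∀ m, C m = ∑ i, g i • ⁅(v i).1, ⁅(v i).1, m⁆⁆ := by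
    intro m
    change (∑ i, g i • (LieModule.toEnd ℂ L M (v i).1 * LieModule.toEnd ℂ L M (v i).1)) m = _
    rw [LinearMap.sum_apply]
    rfl
  have hCL : ∀ (x : L) (m : M), C ⁅x, m⁆ = ⁅x, C m⁆ := by
    intro x m
    let F : L →ₗ[ℂ] L →ₗ[ℂ] M := LinearMap.mk₂ ℂ (fun a b => ⁅a, ⁅b, m⁆⁆)
      (fun a a' b => add_lie _ _ _) (fun c a b => smul_lie _ _ _)
      (fun a b b' => by rw [add_lie, lie_add]) (fun c a b => by rw [smul_lie, lie_smul])
    have h1 := invar hv h F (fun a ha b => hNa a ha _) (fun a b hb => by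
      change ⁅a, ⁅b, m⁆⁆ = 0
      rw [hNa b hb, lie_zero]) x
    simp only [← hg] at h1
    rw [hCm, hCm]
    have h2 : ⁅x, ∑ i, g i • ⁅(v i).1, ⁅(v i).1, m⁆⁆⁆ =
        ∑ i, g i • ⁅x, ⁅(v i).1, ⁅(v i).1, m⁆⁆⁆ := by
      rw [lie_sum]
      exact Finset.sum_congr rfl fun i _ => lie_smul _ _ _
    rw [h2, ← sub_eq_zero, ← neg_eq_zero, ← h1, neg_sub, ← Finset.sum_sub_distrib]
    refine Finset.sum_congr rfl fun i _ => ?_
    rw [← smul_sub]
    congr 1
    change _ = ⁅⁅x, (v i).1⁆, ⁅(v i).1, m⁆⁆ + ⁅(v i).1, ⁅⁅x, (v i).1⁆, m⁆⁆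
    rw [leibniz_lie x (v i).1 ⁅(v i).1, m⁆, leibniz_lie x (v i).1 m, lie_add]
    abel
  obtain ⟨c, hc⟩ := schur hirr C hCL
  have hc0 : c ≠ 0 := by
    intro hc0
    have h1 : LinearMap.trace ℂ M C = 0 := by
      have h2 : C = 0 := by
        ext m
        rw [hc, hc0, zero_smul, LinearMap.zero_apply]
      rw [h2, map_zero]
    have h2 : LinearMap.trace ℂ M C = ∑ i, (if Bf L M D (v i) (v i) = 0 then (0 : ℂ) else 1) := by
      change LinearMap.trace ℂ M (∑ i, g i • (LieModule.toEnd ℂ L M (v i).1 *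
        LieModule.toEnd ℂ L M (v i).1)) = _
      rw [map_sum]
      refine Finset.sum_congr rfl fun i _ => ?_
      rw [map_smul, smul_eq_mul, hg]
      change (Bf L M D (v i) (v i))⁻¹ * Bf L M D (v i) (v i) = _
      split_ifs with hi
      · rw [hi, mul_zero]
      · exact inv_mul_cancel₀ hi
    have h3 : ∀ i, Bf L M D (v i) (v i) = 0 := by
      intro i
      by_contra hi
      rw [h1, Finset.sum_ite, Finset.sum_const_zero, zero_add, Finset.sum_const, nsmul_eq_mul,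
        mul_one] at h2
      have h4 : (Finset.univ.filter fun i => ¬ Bf L M D (v i) (v i) = 0).card = 0 := by
        exact_mod_cast h2.symm
      rw [Finset.card_eq_zero] at h4
      exact absurd (Finset.mem_filter.2 ⟨Finset.mem_univ i, hi⟩) (by
        rw [h4]
        exact Finset.notMem_empty i)
    obtain ⟨x, m, hxm⟩ := hnt
    apply hxm
    have h4 : x ∈ Z ⊔ D := by
      rw [h.sup]
      exact Submodule.mem_top
    obtain ⟨z, hz, d, hd, rfl⟩ := Submodule.mem_sup.1 h4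
    rw [add_lie, hZ z hz, zero_add]
    have h5 : d = ∑ i, v.repr ⟨d, hd⟩ i • (v i).1 := by
      have h6 := congrArg Subtype.val (v.sum_repr ⟨d, hd⟩)
      rw [Submodule.coe_sum] at h6
      exact h6.symm
    rw [h5, sum_lie]
    refine Finset.sum_eq_zero fun i _ => ?_
    rw [smul_lie, hNa _ (mem_ker hv (h3 i)), smul_zero]
  refine ⟨c⁻¹ • ∑ i, g i • ⁅(v i).1, φ (v i).1⁆, fun x => ?_⟩
  let F : L →ₗ[ℂ] L →ₗ[ℂ] M := LinearMap.mk₂ ℂ (fun a b => ⁅a, φ b⁆)
    (fun a a' b => add_lie _ _ _) (fun c a b => smul_lie _ _ _)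
    (fun a b b' => by rw [map_add, lie_add]) (fun c a b => by rw [map_smul, lie_smul])
  have h1 := invar hv h F (fun a ha b => hNa a ha _) (fun a b hb => by
    change ⁅a, φ b⁆ = 0
    rw [hNφ b hb, lie_zero]) x
  simp only [← hg] at h1
  have h2 : ⁅x, ∑ i, g i • ⁅(v i).1, φ (v i).1⁆⁆ = C (φ x) := by
    rw [hCm, lie_sum, ← sub_eq_zero, ← h1, ← Finset.sum_sub_distrib]
    refine Finset.sum_congr rfl fun i _ => ?_
    rw [lie_smul, ← smul_sub]
    congr 1
    change _ = ⁅⁅x, (v i).1⁆, φ (v i).1⁆ + ⁅(v i).1, φ ⁅x, (v i).1⁆⁆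
    rw [leibniz_lie x (v i).1 (φ (v i).1), hφ x (v i).1, lie_sub]
    abel
  rw [lie_smul, h2, hc, smul_smul, inv_mul_cancel₀ hc0, one_smul]

end Pool.Agent.TH128.OW
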