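import Mathlib

/-!
# Reductive Lie algebras: perfect ideals and the kernel of the trace form
-/

set_option autoImplicit false
set_option linter.unusedSectionVars false

open Module

namespace Pool.Agent.TH128.OW

variable {L M : Type} [LieRing L] [LieAlgebra ℂ L] [Module.Finite ℂ L]
  [AddCommGroup M] [Module ℂ M] [LieRingModule L M] [LieModule ℂ L M] [Module.Finite ℂ M]

/-- A decomposition into centre and semisimple part. -/
structure Rd (Z D : Submodule ℂ L) : Prop where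
  cen : ∀ z ∈ Z, ∀ x : L, ⁅x, z⁆ = 0
  rad : ∀ x ∈ LieAlgebra.radical ℂ L, x ∈ Z
  lie : ∀ x y : L, ⁅x, y⁆ ∈ D
  sup : Z ⊔ D = ⊤
  inf : ∀ x, x ∈ Z → x ∈ D → x = 0

variable {Z D : Submodule ℂ L}

theorem Rd.abel (h : Rd Z D) {A : Submodule ℂ L} (hAD : A ≤ D)
    (hid : ∀ y : L, ∀ a ∈ A, ⁅y, a⁆ ∈ A) (hab : ∀ a ∈ A, ∀ b ∈ A, ⁅a, b⁆ = 0) :
    ∀ a ∈ A, a = 0 := by
  let I : LieIdeal ℂ L := { A with lie_mem := fun {x m} hm => hid x m hm }
  have h1 : IsLieAbelian I := ⟨fun a b => Subtype.ext (hab a.1 a.2 b.1 b.2)⟩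
  have h2 : LieAlgebra.IsSolvable I := inferInstance
  have h3 : I ≤ LieAlgebra.radical ℂ L := (LieAlgebra.LieIdeal.solvable_iff_le_radical ℂ L I).1 h2
  intro a ha
  exact h.inf a (h.rad a (h3 ha)) (hAD ha)

theorem Rd.kil (h : Rd Z D) {x : L} (hx : ∀ y, killingForm ℂ L x y = 0) : x ∈ Z := by
  refine h.rad x (LieAlgebra.killingCompl_top_le_radical ℂ L ?_)
  rw [LieIdeal.mem_killingCompl]
  intro y _
  rw [LieModule.traceForm_comm]
  exact hx y

/-- The orthogonal complement. -/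
def orth (β : L →ₗ[ℂ] L →ₗ[ℂ] ℂ) (S : Submodule ℂ L) : Submodule ℂ L where
  carrier := {x | ∀ y ∈ S, β x y = 0}
  zero_mem' := fun y _ => by rw [map_zero, LinearMap.zero_apply]
  add_mem' := fun {a b} ha hb y hy => by
    rw [map_add, LinearMap.add_apply, ha y hy, hb y hy, add_zero]
  smul_mem' := fun c a ha y hy => by
    rw [map_smul, LinearMap.smul_apply, ha y hy, smul_zero]

/-- The span of the brackets. -/
def brs (I : Submodule ℂ L) : Submodule ℂ L :=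
  Submodule.span ℂ {w | ∃ a ∈ I, ∃ b ∈ I, w = ⁅a, b⁆}

theorem brs_le {I : Submodule ℂ L} (hid : ∀ y : L, ∀ a ∈ I, ⁅y, a⁆ ∈ I) : brs I ≤ I := by
  refine Submodule.span_le.2 ?_
  rintro _ ⟨a, _, b, hb, rfl⟩
  exact hid a b hb

theorem brs_id {I : Submodule ℂ L} (hid : ∀ y : L, ∀ a ∈ I, ⁅y, a⁆ ∈ I) (y : L) :
    ∀ a ∈ brs I, ⁅y, a⁆ ∈ brs I := by
  intro a ha
  unfold brs at ha ⊢
  induction ha using Submodule.span_induction with
  | mem x hx =>
    obtain ⟨a, ha, b, hb, rfl⟩ := hx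
    rw [leibniz_lie]
    refine Submodule.add_mem _ (Submodule.subset_span ⟨_, hid y a ha, b, hb, rfl⟩)
      (Submodule.subset_span ⟨a, ha, _, hid y b hb, rfl⟩)
  | zero =>
    rw [lie_zero]
    exact Submodule.zero_mem _
  | add x z _ _ hx hz =>
    rw [lie_add]
    exact Submodule.add_mem _ hx hz
  | smul c x _ hx =>
    rw [lie_smul]
    exact Submodule.smul_mem _ _ hx

theorem inv1 (V : Type) [AddCommGroup V] [Module ℂ V] [LieRingModule L V] [LieModule ℂ L V]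
    [Module.Finite ℂ V] (x y z : L) :
    LieModule.traceForm ℂ L V ⁅y, x⁆ z = -LieModule.traceForm ℂ L V x ⁅y, z⁆ := by
  rw [← lie_skew, map_neg, LinearMap.neg_apply, LieModule.traceForm_apply_lie_apply]

/-- Ideals in the semisimple part are perfect. -/
theorem Rd.perfect (h : Rd Z D) {I : Submodule ℂ L} (hID : I ≤ D)
    (hid : ∀ y : L, ∀ a ∈ I, ⁅y, a⁆ ∈ I) : I ≤ brs I := by
  have hA : ∀ a ∈ I ⊓ orth (killingForm ℂ L) I, a = 0 := by
    refine h.abel (inf_le_left.trans hID) ?_ ?_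
    · rintro y a ⟨ha, ha2⟩
      refine ⟨hid y a ha, fun b hb => ?_⟩
      rw [inv1 L a y b]
      rw [show LieModule.traceForm ℂ L L a ⁅y, b⁆ = 0 from ha2 _ (hid y b hb), neg_zero]
    · rintro a ⟨ha, ha2⟩ b ⟨hb, hb2⟩
      refine h.inf _ (h.kil fun y => ?_) (hID (hid a b hb))
      rw [LieModule.traceForm_apply_lie_apply, ← lie_skew, map_neg]
      rw [show LieModule.traceForm ℂ L L a ⁅y, b⁆ = 0 from ha2 _ (hid y b hb), neg_zero]
  have hC : ∀ x ∈ I ⊓ orth (killingForm ℂ L) (brs I), x = 0 := by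
    have hcomm : ∀ x ∈ I ⊓ orth (killingForm ℂ L) (brs I), ∀ a ∈ I, ⁅x, a⁆ = 0 := by
      rintro x ⟨hx, hx2⟩ a ha
      refine hA _ ⟨hid x a ha, fun b hb => ?_⟩
      rw [LieModule.traceForm_apply_lie_apply]
      exact hx2 _ (Submodule.subset_span ⟨a, ha, b, hb, rfl⟩)
    refine h.abel (inf_le_left.trans hID) ?_ fun a ha b hb => hcomm a ha b hb.1
    rintro y x ⟨hx, hx2⟩
    refine ⟨hid y x hx, fun w hw => ?_⟩
    rw [inv1 L x y w]
    rw [show LieModule.traceForm ℂ L L x ⁅y, w⁆ = 0 from hx2 _ (brs_id hid y w hw), neg_zero]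
  let f : I →ₗ[ℂ] Module.Dual ℂ (brs I) :=
    (Submodule.dualRestrict (brs I)) ∘ₗ (killingForm ℂ L) ∘ₗ I.subtype
  have hf : Function.Injective f := by
    rw [← LinearMap.ker_eq_bot, LinearMap.ker_eq_bot']
    intro x hx
    apply Subtype.ext
    refine hC x.1 ⟨x.2, fun w hw => ?_⟩
    exact LinearMap.congr_fun hx ⟨w, hw⟩
  have h1 := LinearMap.finrank_le_finrank_of_injective hf
  rw [Subspace.dual_finrank_eq] at h1
  exact le_of_eq (Submodule.eq_of_le_of_finrank_le (brs_le hid) h1).symm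

/-- **The kernel of the trace form acts trivially.** -/
theorem Rd.ker_trace (h : Rd Z D) [Nontrivial M]
    (hirr : ∀ S : LieSubmodule ℂ L M, S ≠ ⊥ → S = ⊤) {x : L}
    (hx : x ∈ D ⊓ orth (LieModule.traceForm ℂ L M) D) (m : M) : ⁅x, m⁆ = 0 := by
  obtain ⟨N, hN⟩ : ∃ N : Submodule ℂ L, N = D ⊓ orth (LieModule.traceForm ℂ L M) D := ⟨_, rfl⟩
  rw [← hN] at hx
  have hND : N ≤ D := by
    rw [hN]
    exact inf_le_left
  have hid : ∀ y : L, ∀ a ∈ N, ⁅y, a⁆ ∈ N := by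
    intro y a ha
    rw [hN] at ha ⊢
    refine ⟨h.lie y a, fun b _ => ?_⟩
    rw [inv1 M a y b]
    rw [show LieModule.traceForm ℂ L M a ⁅y, b⁆ = 0 from ha.2 _ (h.lie y b), neg_zero]
  let I : LieIdeal ℂ L := { N with lie_mem := fun {x m} hm => hid x m hm }
  have htf : LieModule.traceForm ℂ I M = 0 := by
    ext ⟨a, ha⟩ ⟨b, hb⟩
    change LieModule.traceForm ℂ L M a b = 0
    have ha' : a ∈ N := ha
    rw [hN] at ha'
    exact ha'.2 b (hND hb)
  have hnil := LieModule.isNilpotent_derivedSeries_of_traceForm_eq_zero htf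
  have hder : ∀ (a : L) (ha : a ∈ N), (⟨a, ha⟩ : I) ∈ LieAlgebra.derivedSeries ℂ I 1 := by
    have h1 : N ≤ (LieAlgebra.derivedSeries ℂ I 1).toSubmodule.map I.toSubmodule.subtype := by
      refine (h.perfect hND hid).trans (Submodule.span_le.2 ?_)
      rintro _ ⟨a, ha, b, hb, rfl⟩
      refine ⟨⁅(⟨a, ha⟩ : I), (⟨b, hb⟩ : I)⁆, ?_, rfl⟩
      change _ ∈ LieAlgebra.derivedSeriesOfIdeal ℂ I 1 ⊤
      rw [LieAlgebra.derivedSeriesOfIdeal_succ, LieAlgebra.derivedSeriesOfIdeal_zero]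
      exact LieSubmodule.lie_mem_lie (LieSubmodule.mem_top _) (LieSubmodule.mem_top _)
    intro a ha
    obtain ⟨b, hb, hba⟩ := h1 ha
    have h2 : b = ⟨a, ha⟩ := Subtype.ext hba
    rw [← h2]
    exact hb
  have hnt := LieModule.nontrivial_max_triv_of_isNilpotent ℂ (LieAlgebra.derivedSeries ℂ I 1) M
  obtain ⟨⟨m₀, hm₀⟩, hne⟩ := exists_ne
    (0 : LieModule.maxTrivSubmodule ℂ (LieAlgebra.derivedSeries ℂ I 1) M)
  have hm1 : ∀ a ∈ N, ⁅a, m₀⁆ = 0 := by
    intro a ha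
    exact (LieModule.mem_maxTrivSubmodule _ _ _ _).1 hm₀ ⟨⟨a, ha⟩, hder a ha⟩
  let W : LieSubmodule ℂ L M :=
    { carrier := {m | ∀ a ∈ N, ⁅a, m⁆ = 0}
      zero_mem' := fun a _ => lie_zero a
      add_mem' := fun {m m'} hm hm' a ha => by rw [lie_add, hm a ha, hm' a ha, add_zero]
      smul_mem' := fun c m hm a ha => by rw [lie_smul, hm a ha, smul_zero]
      lie_mem := fun {y m} hm a ha => by
        rw [leibniz_lie, ← lie_skew, neg_lie, hm _ (hid y a ha), hm a ha, lie_zero, neg_zero,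
          add_zero] }
  have hW : W = ⊤ := hirr W (by
    intro h0
    apply hne
    apply Subtype.ext
    have h1 : m₀ ∈ W := hm1
    rw [h0] at h1
    exact (LieSubmodule.mem_bot _).1 h1)
  have h1 : m ∈ W := by
    rw [hW]
    exact LieSubmodule.mem_top _
  exact h1 x hx

end Pool.Agent.TH128.OW
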